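import Pool.Agent.H677_SC.Basic

set_option autoImplicit false

open Finset

namespace Pool.Agent.Results.MP_34a732_nt.FalseAtThirtyOne

/-- The generalised binomial coefficient `a (a - 1) ⋯ (a - k + 1) / k!`. -/
def gb (a : ℚ) (k : ℕ) : ℚ := (∏ i ∈ range k, (a - i)) / (k.factorial : ℚ)

/-- `S_1(p)`. -/
def S1 (p : ℕ) : ℚ := ∑ k ∈ range p, gb (-1 / 3) k * gb (-1 / 6) k * (27 / 16) ^ k

/-- `S_2(p)`. -/
def S2 (p : ℕ) : ℚ := ∑ k ∈ range p, gb (-2 / 3) k * gb (-5 / 6) k * (27 / 16) ^ k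

/-- `u ≡ v` modulo `p ^ m` for rationals with denominator prime to `p`: the difference is
`p ^ m` times a rational number whose denominator is not divisible by `p`. -/
def Congr (p m : ℕ) (u v : ℚ) : Prop := ∃ r : ℚ, ¬ p ∣ r.den ∧ u - v = (p : ℚ) ^ m * r

/-- The Legendre symbol of `-11 + e x / y` modulo `p` (the quotient taken modulo `p`). -/
def symb (p : ℕ) [Fact p.Prime] (e x y : ℤ) : ℤ :=
  quadraticChar (ZMod p) (-11 + (e : ZMod p) * (x : ZMod p) / (y : ZMod p))

/-- The congruences of Q1 for the prime `p` and the representation `4 p = x ^ 2 + 11 y ^ 2`. -/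
def Assertion (p : ℕ) [Fact p.Prime] (x y : ℤ) : Prop :=
  (p % 3 = 1 →
    Congr p 2 (S1 p) (S2 p) ∧
    Congr p 2 (S2 p) (-(symb p 1 x y : ℚ) * (jacobiSym x 11 : ℚ) * (x - p / x))) ∧
  (p % 3 = 2 →
    Congr p 2 (S1 p) (-11 / 16 * S2 p) ∧
    Congr p 2 (-11 / 16 * S2 p)
      (-1 / 4 * (symb p (jacobiSym x 11) x y : ℚ) * (11 * y - p / y)) ∧
    Congr p 1 (y * (symb p (jacobiSym x 11) x y : ℚ))
      (1 / 4 * ∑ k ∈ range ((p - 5) / 6 + 1),
        (((p - 2) / 3).choose k : ℚ) * (((p - 5) / 6).choose k : ℚ) * (27 / 16) ^ k))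

instance fact31 : Fact (Nat.Prime 31) := ⟨by norm_num⟩

/-- Q1 as posed is false: its congruence fails for `p = 31`, `4 * 31 = 5 ^ 2 + 11 * 3 ^ 2`. -/
theorem result : ¬ ∀ (p : ℕ) [Fact p.Prime], 11 < p → jacobiSym p 11 = 1 →
    ∀ x y : ℤ, 4 * (p : ℤ) = x ^ 2 + 11 * y ^ 2 → Assertion p x y := by
  intro h
  obtain ⟨r, hr, he⟩ := ((h 31 (by norm_num) (by norm_num) 5 3 (by norm_num)).1 (by norm_num)).2
  have hs : symb 31 1 5 3 = 1 := by
    have : (-11 + ((1 : ℤ) : ZMod 31) * ((5 : ℤ) : ZMod 31) / ((3 : ℤ) : ZMod 31)) = 1 := by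
      have h5 : ((5 : ℤ) : ZMod 31) = 12 * ((3 : ℤ) : ZMod 31) := by decide +kernel
      have h3 : ((3 : ℤ) : ZMod 31) ≠ 0 := by decide +kernel
      rw [Int.cast_one, one_mul, h5, mul_div_assoc, div_self h3]
      norm_num
    rw [symb, this, map_one]
  have hj : jacobiSym 5 11 = 1 := by norm_num
  rw [hs, hj] at he
  have hS : S2 31 = 117617131796850065580026657913345579892153519428419922831313 /
      59863107065073783529622930748058952485106996960296960 + 6 / 5 := by
    decide +kernel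
  have key := Pool.Agent.H677_SC.dvd_of_den (p := 31) (m := 2) (by norm_num) hr
    (d := 59863107065073783529622930748058952485106996960296960)
    (N := 117617131796850065580026657913345579892153519428419922831313) (by
      rw [← he, hS]
      norm_num)
  revert key
  norm_num

end Pool.Agent.Results.MP_34a732_nt.FalseAtThirtyOne
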